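import Mathlib

namespace Pool.Agent.Results.MP_2dcdad_ag.Q1
open MvPolynomial

abbrev F := ZMod 2
abbrev K := AlgebraicClosure (ZMod 2)

noncomputable def TT : Fin 3 → MvPolynomial (Fin 3) F :=
  ![X 0 ^ 2 * X 2 ^ 2 * (X 0 + X 1), X 1 ^ 4 * (X 0 + X 1), X 2 ^ 4 * (X 0 + X 1)]

noncomputable def act (Q : Fin 3 → K) : Fin 3 → K := fun i => aeval Q (TT i)

lemma act_eq (Q : Fin 3 → K) :
    act Q = ![Q 0 ^ 2 * Q 2 ^ 2 * (Q 0 + Q 1), Q 1 ^ 4 * (Q 0 + Q 1), Q 2 ^ 4 * (Q 0 + Q 1)] := by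
  funext i; fin_cases i <;> simp [act, TT]

lemma act_zero : act 0 = 0 := by
  rw [act_eq]; funext i; fin_cases i <;> simp

lemma two0 : (2 : K) = 0 := by exact_mod_cast CharP.cast_eq_zero K 2

lemma orbit (x : K) (Q : Fin 3 → K) (h0 : Q 0 = x * Q 2) (h1 : Q 1 = x ^ 2 * Q 2) (k : ℕ) :
    act^[k] Q 0 = x ^ (2 ^ k) * act^[k] Q 2 ∧ act^[k] Q 1 = x ^ (2 ^ (2 * k + 1)) * act^[k] Q 2 := by
  induction k with
  | zero => simpa using ⟨h0, h1⟩
  | succ k ih =>
    rw [Function.iterate_succ_apply', act_eq]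
    simp only [Matrix.cons_val_zero, Matrix.cons_val_one, Matrix.cons_val]
    constructor
    · rw [ih.1, pow_succ 2 k, pow_mul]; ring
    · rw [show 2 ^ (2 * (k + 1) + 1) = 2 ^ (2 * k + 1) * 4 by ring, pow_mul]
      rw [← mul_assoc, ← mul_pow, ← ih.2]

lemma period (x : K) : ∃ k : ℕ, x ^ (2 ^ (k + 1)) = x := by
  have hf : FiniteDimensional F (IntermediateField.adjoin F {x}) :=
    IntermediateField.adjoin.finiteDimensional (Algebra.IsIntegral.isIntegral x)
  have : Finite (IntermediateField.adjoin F {x}) := Module.finite_of_finite F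
  have := Fintype.ofFinite (IntermediateField.adjoin F {x})
  obtain ⟨n, -, hn⟩ := FiniteField.card (IntermediateField.adjoin F {x}) 2
  have h := FiniteField.pow_card (⟨x, IntermediateField.mem_adjoin_simple_self F x⟩ :
    IntermediateField.adjoin F {x})
  rw [hn] at h
  refine ⟨n - 1, ?_⟩
  rw [show (n : ℕ) - 1 + 1 = n from Nat.sub_add_cancel n.2]
  exact congrArg Subtype.val h

noncomputable def II : Set (MvPolynomial (Fin 3) F) := {X 1 - 1, X 2 - X 0 ^ 2}

lemma prime : (Ideal.span (MvPolynomial.map (algebraMap F K) '' II)).IsPrime := by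
  let φ : MvPolynomial (Fin 3) K →ₐ[K] Polynomial K := aeval ![Polynomial.X, 1, Polynomial.X ^ 2]
  have : Ideal.span (MvPolynomial.map (algebraMap F K) '' II) = RingHom.ker φ := by
    have e : MvPolynomial.map (algebraMap F K) '' II = {X 1 - 1, X 2 - X 0 ^ 2} := by
      simp [II, Set.image_pair]
    rw [e]
    apply le_antisymm
    · rw [Ideal.span_le]
      rintro _ (rfl | rfl) <;> simp [φ]
    · have key : ∀ p : MvPolynomial (Fin 3) K, p - Polynomial.aeval (X 0) (φ p) ∈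
          Ideal.span ({X 1 - 1, X 2 - X 0 ^ 2} : Set (MvPolynomial (Fin 3) K)) := by
        intro p
        induction p using MvPolynomial.induction_on with
        | C a => simp [φ]
        | add p q hp hq =>
          rw [map_add, map_add, add_sub_add_comm]; exact Ideal.add_mem _ hp hq
        | mul_X p i hp =>
          have hi : X i - Polynomial.aeval (X 0) (φ (X i)) ∈
              Ideal.span ({X 1 - 1, X 2 - X 0 ^ 2} : Set (MvPolynomial (Fin 3) K)) := by
            fin_cases i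
            · simp [φ]
            · exact Ideal.subset_span (Or.inl (by simp [φ]))
            · exact Ideal.subset_span (Or.inr (by simp [φ]))
          rw [map_mul, map_mul]
          convert Ideal.add_mem _ (Ideal.mul_mem_right (X i) _ hp)
            (Ideal.mul_mem_left _ (Polynomial.aeval (X 0) (φ p)) hi) using 1
          ring
      intro p hp
      have := key p
      rwa [RingHom.mem_ker.1 hp, map_zero, sub_zero] at this
  rw [this]
  exact RingHom.ker_isPrime _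

lemma fin_fix : {P | act P = P}.Finite := by
  have hr : ∀ n : ℕ, 2 ≤ n → {x : K | x ^ n = x}.Finite := fun n hn =>
    ((Polynomial.X ^ n - Polynomial.X : Polynomial K).rootSet_finite K).subset fun x hx => by
      rw [Polynomial.mem_rootSet]
      exact ⟨FiniteField.X_pow_card_sub_X_ne_zero K (by omega), by simpa [sub_eq_zero] using hx⟩
  have key : ∀ P, act P = P → ∀ i, P i ^ 13 = P i := by
    intro P hP
    rw [act_eq] at hP
    have h0 : P 0 ^ 2 * P 2 ^ 2 * (P 0 + P 1) = P 0 := congrFun hP 0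
    have h1 : P 1 ^ 4 * (P 0 + P 1) = P 1 := congrFun hP 1
    have h2 : P 2 ^ 4 * (P 0 + P 1) = P 2 := congrFun hP 2
    set a := P 0
    set b := P 1
    set c := P 2
    have goal : a ^ 13 = a ∧ b ^ 13 = b ∧ c ^ 13 = c := by
      by_cases hc : c = 0
      · have ha : a = 0 := by rw [← h0, hc]; ring
        rw [ha, zero_add] at h1
        refine ⟨by simp [ha], ?_, by simp [hc]⟩
        linear_combination (b ^ 8 + b ^ 4 + 1) * h1
      · have e1 : c ^ 3 * (a + b) = 1 := mul_left_cancel₀ hc (by linear_combination h2)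
        have e2 : a ^ 2 = a * c := by linear_combination c * h0 - a ^ 2 * e1
        have e3 : b ^ 4 = b * c ^ 3 := by linear_combination c ^ 3 * h1 - b ^ 4 * e1
        have e4 : a ^ 4 = a * c ^ 3 := by linear_combination (a ^ 2 + a * c + c ^ 2) * e2
        have e5 : (a + b) ^ 4 = (a + b) * c ^ 3 := by
          linear_combination e3 + e4 + (2 * a ^ 3 * b + 3 * a ^ 2 * b ^ 2 + 2 * a * b ^ 3) * two0
        have e6 : c ^ 12 = 1 := by
          have : (c ^ 3 * (a + b)) ^ 4 = 1 := by rw [e1, one_pow]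
          rw [mul_pow, e5] at this
          linear_combination this - c ^ 12 * e1
        refine ⟨?_, ?_, by linear_combination c * e6⟩
        · linear_combination (a ^ 9 + a ^ 6 * c ^ 3 + a ^ 3 * c ^ 6 + c ^ 9) * e4 + a * e6
        · linear_combination (b ^ 9 + b ^ 6 * c ^ 3 + b ^ 3 * c ^ 6 + c ^ 9) * e3 + b * e6
    intro i
    fin_cases i
    exacts [goal.1, goal.2.1, goal.2.2]
  exact (Set.Finite.pi' fun _ : Fin 3 => hr 13 (by norm_num)).subset fun P hP i => key P hP i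

lemma fix1 : act ![0, 1, 0] = ![0, 1, 0] := by
  rw [act_eq]; funext i; fin_cases i <;> simp

lemma collapse (Q : Fin 3 → K) (h1 : Q 1 = 1) (h2 : Q 2 = Q 0 ^ 2) (h0 : Q 0 ≠ 0) :
    ∃ k ≥ 1, act^[k] Q = 0 := by
  obtain ⟨k, hk⟩ := period (Q 0)⁻¹
  have h := orbit (Q 0)⁻¹ Q (by rw [h2]; field_simp) (by rw [h1, h2]; field_simp) k
  refine ⟨k + 1, by omega, ?_⟩
  have e : act^[k] Q 0 + act^[k] Q 1 = 0 := by
    rw [h.1, h.2, show 2 ^ (2 * k + 1) = 2 ^ (k + 1) * 2 ^ k by ring, pow_mul, hk, ← two_mul, two0,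
      zero_mul]
  rw [Function.iterate_succ_apply', act_eq, e]
  funext i; fin_cases i <;> simp

theorem result : ∃ (T : Fin 3 → MvPolynomial (Fin 3) (ZMod 2)) (I : Set (MvPolynomial (Fin 3) (ZMod 2)))
    (τ : (Fin 3 → AlgebraicClosure (ZMod 2)) → (Fin 3 → AlgebraicClosure (ZMod 2)))
    (Y : Set (Fin 3 → AlgebraicClosure (ZMod 2))),
    (∀ Q i, τ Q i = aeval Q (T i)) ∧ (∀ Q, Q ∈ Y ↔ ∀ f ∈ I, aeval Q f = 0) ∧
    (Ideal.span (MvPolynomial.map (algebraMap (ZMod 2) (AlgebraicClosure (ZMod 2))) '' I)).IsPrime ∧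
    {P | τ P = P}.Finite ∧ (∀ Q ∈ Y, ∃ k ≥ 1, τ (τ^[k] Q) = τ^[k] Q) ∧
    ∃ Q₁ ∈ Y, ∃ Q₂ ∈ Y, ∃ k₁ ≥ 1, ∃ k₂ ≥ 1, τ (τ^[k₁] Q₁) = τ^[k₁] Q₁ ∧ τ (τ^[k₂] Q₂) = τ^[k₂] Q₂ ∧
      τ^[k₁] Q₁ ≠ τ^[k₂] Q₂ := by
  refine ⟨TT, II, act, {Q | Q 1 = 1 ∧ Q 2 = Q 0 ^ 2}, fun _ _ => rfl, fun Q => by simp [II, sub_eq_zero],
    prime, fin_fix, fun Q hQ => ?_, ?_⟩
  · by_cases h0 : Q 0 = 0
    · have : Q = ![0, 1, 0] := by
        funext i; fin_cases i
        · exact h0
        · exact hQ.1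
        · simpa [h0] using hQ.2
      exact ⟨1, le_rfl, by simp [this, fix1]⟩
    · obtain ⟨k, hk, h⟩ := collapse Q hQ.1 hQ.2 h0
      exact ⟨k, hk, by rw [h, act_zero]⟩
  · obtain ⟨k, hk, h⟩ := collapse ![1, 1, 1] rfl (by simp) (by simp)
    refine ⟨![0, 1, 0], ⟨rfl, by simp⟩, ![1, 1, 1], ⟨rfl, by simp⟩, 1, le_rfl, k, hk,
      by simp [fix1], by rw [h, act_zero], ?_⟩
    rw [h, Function.iterate_one, fix1]
    intro e
    simpa using congrFun e 1

end Pool.Agent.Results.MP_2dcdad_ag.Q1
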